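import Pool.Agent.Helper55.UN.CR3
import Pool.Agent.Helper16.UN.CR2

/-!
MP_b8862a_ag, orthogonal (type III) theorem, block CW: symmetric simply laced systems in which
the roots of value one are pairwise adjacent.
-/

open Module

namespace OR

open UN

variable {K : Type*} [Field K] [CharZero K] {M : Type*} [AddCommGroup M] [Module K M]
  {B : LinearMap.BilinForm K M} {s : M →ₗ[K] K} {c : K} {Φ X : Finset M}

namespace CW

omit [CharZero K] in
open Classical in
theorem card_neg_le (h : USL B s c Φ X) {a : M} (ha : a ∈ Φ) :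
    (X.filter (fun x => B x a = 1)).card ≤ (X.filter (fun x => B x (-a) = 1)).card := by
  refine Finset.card_le_card_of_injOn (fun x => x - a) ?_ ?_
  · intro x hx
    rw [Finset.mem_coe, Finset.mem_filter] at hx
    rw [Finset.mem_coe, Finset.mem_filter]
    refine ⟨h.xsub x hx.1 a ha hx.2, ?_⟩
    rw [map_neg, map_sub, LinearMap.sub_apply, hx.2, h.two a ha]
    norm_num
  · intro x _ y _ hxy
    exact sub_left_injective hxy

omit [CharZero K] in
open Classical in
theorem card_neg (h : USL B s c Φ X) {a : M} (ha : a ∈ Φ) :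
    (X.filter (fun x => B x (-a) = 1)).card = (X.filter (fun x => B x a = 1)).card := by
  refine le_antisymm ?_ (card_neg_le h ha)
  have := card_neg_le h (h.neg a ha)
  rwa [neg_neg] at this

open Classical in
/-- The counts are `N` for all roots if they are `N` for the roots of value one. -/
theorem card_all (h : USL B s c Φ X) {N : ℕ}
    (h1 : ∀ a ∈ Φ, s a = 1 → (X.filter (fun x => B x a = 1)).card = N) {g : M} (hg : g ∈ Φ) :
    (X.filter (fun x => B x g = 1)).card = N := by
  rcases UN.CR2.vals h hg with h2 | h2 | h2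
  · rw [← card_neg h hg]
    exact h1 _ (h.neg g hg) (by rw [map_neg, h2, neg_neg])
  · have hg0 : g ≠ 0 := UN.CR2.ne_zero h hg
    obtain ⟨b, hb, hsb, hgb⟩ : ∃ b ∈ Φ, s b = 1 ∧ B g b ≠ 0 := by
      by_contra! hcon
      exact hg0 (h.hit g hcon)
    have hne : g ≠ b := by
      rintro rfl
      rw [h2] at hsb
      exact zero_ne_one hsb
    have hne' : g ≠ -b := by
      rintro rfl
      rw [map_neg, hsb] at h2
      norm_num at h2
    rcases h.pair g hg b hb hne hne' with h3 | h3 | h3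
    · have h4 : B (-g) b = 1 := by
        rw [map_neg, LinearMap.neg_apply, h3, neg_neg]
      rw [← card_neg h hg, UN.CR2.card_eq h (h.neg g hg) hb h4]
      exact h1 b hb hsb
    · exact absurd h3 hgb
    · rw [UN.CR2.card_eq h hg hb h3]
      exact h1 b hb hsb
  · exact h1 g hg h2

end CW

open Classical in
/-- CW: all roots of value one adjacent. -/
theorem wedge (h : USL B s c Φ X) (hneg : ∀ x ∈ X, -x ∈ X)
    (hq : ∀ x ∈ X, ∃ q : ℕ, B x x = q)
    (hadj : ∀ a ∈ Φ, ∀ b ∈ Φ, s a = 1 → s b = 1 → a ≠ b → B a b = 1)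
    (hr : ∃ a ∈ Φ, s a = 1 ∧ (X.filter (fun x => B x a = 1)).card ≠ 1) :
    ∃ m, Even m ∧ 2 ≤ m ∧ X.card = (2 * m).choose m ∧
      ∀ a ∈ Φ, (X.filter (fun x => B x a = 1)).card = (2 * m - 2).choose (m - 1) := by
  set P := Φ.filter (fun a => s a = 1) with hPdef
  have hP : ∀ a, a ∈ P ↔ a ∈ Φ ∧ s a = 1 := fun a => Finset.mem_filter
  set X₁ := X.filter (fun x => s x = c) with hX₁
  set X₂ := X.filter (fun x => ¬ s x = c) with hX₂
  set S : M → Finset M := fun x => P.filter (fun a => B x a = 1) with hS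
  set d := P.card with hd
  have memX₁ : ∀ x, x ∈ X₁ ↔ x ∈ X ∧ s x = c := fun x => Finset.mem_filter
  have memX₂ : ∀ x, x ∈ X₂ ↔ x ∈ X ∧ ¬ s x = c := fun x => Finset.mem_filter
  have memS : ∀ x a, a ∈ S x ↔ a ∈ P ∧ B x a = 1 := fun x a => Finset.mem_filter
  have two0 : (2 : K) ≠ 0 := two_ne_zero
  have m1ne : (-1 : K) ≠ 1 := by
    intro h1
    apply two0
    linear_combination -h1
  -- values on weights
  have v1 : ∀ x ∈ X₁, ∀ a ∈ P, B x a = if a ∈ S x then 1 else 0 := by
    intro x hx a ha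
    rcases h.plus_val ((memX₁ x).mp hx).1 ((memX₁ x).mp hx).2 ((hP a).mp ha).1 ((hP a).mp ha).2
      with h1 | h1
    · rw [if_neg, h1]
      rw [memS, h1]
      exact fun h2 => zero_ne_one h2.2
    · rw [if_pos ((memS x a).mpr ⟨ha, h1⟩), h1]
  -- cardinalities of the sets
  have c1 : ∀ x ∈ X₁, ((S x).card : K) = (d + 1) * c := by
    intro x hx
    rw [← ((memX₁ x).mp hx).2, ← h.B_sum hadj hP x, Finset.sum_congr rfl (v1 x hx),
      Finset.sum_ite_mem, Finset.sum_const, nsmul_eq_mul, mul_one,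
      Finset.inter_eq_right.mpr (Finset.filter_subset _ _)]
  -- a first weight
  obtain ⟨a₀, ha₀, hsa₀, hra₀⟩ := hr
  have ha₀P : a₀ ∈ P := (hP a₀).mpr ⟨ha₀, hsa₀⟩
  obtain ⟨x₀, hx₀, hxa₀⟩ := h.faith a₀ ha₀
  have valc : ∀ x ∈ X, ∀ a ∈ Φ, s a = 1 → B x a = 1 → s x = c := by
    intro x hx a ha hsa hxa
    rcases h.sx x hx with h1 | h1
    · exact h1
    · exfalso
      rcases h.minus_val hx h1 ha hsa with h2 | h2 <;> rw [hxa] at h2
      · exact one_ne_zero h2
      · exact m1ne h2.symm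
  have hx₀1 : x₀ ∈ X₁ := (memX₁ x₀).mpr ⟨hx₀, valc x₀ hx₀ a₀ ha₀ hsa₀ hxa₀⟩
  have hc2 : 2 * c = 1 := by
    have h1 := h.sx _ (hneg x₀ hx₀)
    have h2 := h.sx _ (hneg _ (h.xsub x₀ hx₀ a₀ ha₀ hxa₀))
    rw [map_neg, ((memX₁ x₀).mp hx₀1).2] at h1
    rw [map_neg, map_sub, ((memX₁ x₀).mp hx₀1).2, hsa₀] at h2
    rcases h1 with h1 | h1
    · rcases h2 with h2 | h2
      · linear_combination -h2
      · exfalso
        apply two0
        linear_combination h2 - h1
    · linear_combination -h1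
  set k := (S x₀).card with hk
  have hkc : (k : K) = (d + 1) * c := c1 x₀ hx₀1
  have hmid : d + 1 = 2 * k := by
    have h1 : ((d + 1 : ℕ) : K) = ((2 * k : ℕ) : K) := by
      push_cast
      rw [hkc]
      linear_combination (-(d : K) - 1) * hc2
    exact_mod_cast h1
  have hk1 : 1 ≤ k := Finset.card_pos.mpr ⟨a₀, (memS x₀ a₀).mpr ⟨ha₀P, hxa₀⟩⟩
  have ck1 : ∀ x ∈ X₁, (S x).card = k := by
    intro x hx
    have h1 := c1 x hx
    rw [← hkc] at h1
    exact_mod_cast h1
  -- values of differences of roots of value one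
  have sub1 : ∀ x ∈ X₁, S x ⊆ P := fun x _ => Finset.filter_subset _ _
  have hBP : ∀ a ∈ P, ∀ b ∈ P, B a b = 1 + if a = b then 1 else 0 := by
    intro a ha b hb
    by_cases hab : a = b
    · subst hab
      rw [if_pos rfl, h.two a ((hP a).mp ha).1]
      norm_num
    · rw [if_neg hab, add_zero]
      exact hadj a ((hP a).mp ha).1 b ((hP b).mp hb).1 ((hP a).mp ha).2 ((hP b).mp hb).2 hab
  have hdiff : ∀ a ∈ P, ∀ b ∈ P, a ≠ b → a - b ∈ Φ := by
    intro a ha b hb hab
    apply h.sub a ((hP a).mp ha).1 b ((hP b).mp hb).1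
    rw [hBP a ha b hb, if_neg hab, add_zero]
  -- exchange
  have ex1 : ∀ y ∈ X₁, ∀ a ∈ S y, ∀ b ∈ P, b ∉ S y →
      ∃ z ∈ X₁, S z = insert b ((S y).erase a) := by
    intro y hy a ha b hb hbS
    have haP := ((memS y a).mp ha).1
    have hab : a ≠ b := by rintro rfl; exact hbS ha
    have hya := ((memS y a).mp ha).2
    have hyb : B y b = 0 := by rw [v1 y hy b hb, if_neg hbS]
    have hz : y - (a - b) ∈ X := by
      apply h.xsub y ((memX₁ y).mp hy).1 _ (hdiff a haP b hb hab)
      rw [map_sub, hya, hyb, sub_zero]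
    refine ⟨y - (a - b), ?_, ?_⟩
    · rw [memX₁]
      refine ⟨hz, ?_⟩
      rw [map_sub, map_sub, ((hP a).mp haP).2, ((hP b).mp hb).2, sub_self, sub_zero,
        ((memX₁ y).mp hy).2]
    · ext w
      rw [memS, Finset.mem_insert, Finset.mem_erase]
      have e : ∀ w ∈ P, B (y - (a - b)) w =
          B y w - ((if a = w then 1 else 0) - (if b = w then 1 else 0)) := by
        intro w hw
        rw [map_sub, map_sub, LinearMap.sub_apply, LinearMap.sub_apply, hBP a haP w hw,
          hBP b hb w hw]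
        ring
      constructor
      · rintro ⟨hw, h1⟩
        rw [e w hw] at h1
        by_cases hwb : w = b
        · exact Or.inl hwb
        · right
          rw [if_neg (Ne.symm hwb), sub_zero] at h1
          by_cases hwa : a = w
          · exfalso
            subst hwa
            rw [if_pos rfl, hya, sub_self] at h1
            exact zero_ne_one h1
          · rw [if_neg hwa, sub_zero] at h1
            exact ⟨Ne.symm hwa, (memS y w).mpr ⟨hw, h1⟩⟩
      · rintro (rfl | ⟨hwa, hwS⟩)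
        · refine ⟨hb, ?_⟩
          rw [e w hb, if_neg hab, if_pos rfl, hyb]
          ring
        · obtain ⟨hwP, hyw⟩ := (memS y w).mp hwS
          refine ⟨hwP, ?_⟩
          have hwb : b ≠ w := by rintro rfl; exact hbS hwS
          rw [e w hwP, if_neg (Ne.symm hwa), if_neg hwb, hyw]
          ring
  -- images
  have im1 : X₁.image S = P.powersetCard k := exchange_image ⟨x₀, hx₀1⟩ ck1 sub1 ex1
  -- injectivity
  have sep : ∀ x ∈ X, ∀ y ∈ X, (∀ a ∈ P, B x a = B y a) → x = y := by
    intro x hx y hy hxy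
    have h1 : x - y = 0 := by
      apply h.hit
      intro a ha hsa
      rw [map_sub, LinearMap.sub_apply, hxy a ((hP a).mpr ⟨ha, hsa⟩), sub_self]
    exact sub_eq_zero.mp h1
  have inj1 : Set.InjOn S X₁ := by
    intro x hx y hy hxy
    refine sep x ((memX₁ x).mp hx).1 y ((memX₁ y).mp hy).1 (fun a ha => ?_)
    rw [v1 x hx a ha, v1 y hy a ha, hxy]
  have card1 : X₁.card = d.choose k := by
    rw [← Finset.card_image_of_injOn inj1, im1, Finset.card_powersetCard]
  have card2 : X₂.card = X₁.card := by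
    have hsx2 : ∀ x ∈ X, ¬ s x = c → s (-x) = c := by
      intro x hx hx2
      rw [map_neg, (h.sx x hx).resolve_left hx2]
      linear_combination -hc2
    have hsx1 : ∀ x, s x = c → ¬ s (-x) = c := by
      intro x hx h1
      rw [map_neg, hx] at h1
      have : (1 : K) = 0 := by linear_combination -hc2 - h1
      exact one_ne_zero this
    refine Finset.card_bij (fun x _ => -x) ?_ ?_ ?_
    · intro x hx
      rw [memX₂] at hx
      exact (memX₁ _).mpr ⟨hneg x hx.1, hsx2 x hx.1 hx.2⟩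
    · intro x _ y _ hxy
      exact neg_injective hxy
    · intro x hx
      rw [memX₁] at hx
      exact ⟨-x, (memX₂ _).mpr ⟨hneg x hx.1, hsx1 x hx.2⟩, neg_neg x⟩
  have card3 : X.card = X₁.card + X₂.card :=
    (Finset.card_filter_add_card_filter_not (s := X) (fun x => s x = c)).symm
  obtain ⟨j, hj⟩ : ∃ j, k = j + 1 := ⟨k - 1, by omega⟩
  have hdj : d = 2 * j + 1 := by omega
  -- parity
  have hcoef : ∀ T ⊆ P, ∀ q ∈ P, B (∑ p ∈ T, p) q = T.card + if q ∈ T then 1 else 0 := by
    intro T hT q hqP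
    rw [map_sum, LinearMap.sum_apply, Finset.sum_congr rfl (fun p hp => hBP p (hT hp) q hqP),
      Finset.sum_add_distrib, Finset.sum_const, nsmul_eq_mul, mul_one, Finset.sum_ite_eq']
  have hx₀e : x₀ = ∑ p ∈ S x₀, p - (2⁻¹ : K) • ∑ p ∈ P, p := by
    rw [← sub_eq_zero]
    apply h.hit
    intro q hqΦ hsq
    have hqP : q ∈ P := (hP q).mpr ⟨hqΦ, hsq⟩
    rw [map_sub, LinearMap.sub_apply, map_sub, LinearMap.sub_apply, map_smul,
      LinearMap.smul_apply, hcoef _ (sub1 x₀ hx₀1) q hqP, hcoef _ (Finset.Subset.refl P) q hqP,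
      if_pos hqP, v1 x₀ hx₀1 q hqP, ← hk, ← hd, smul_eq_mul]
    have h1 : (d : K) + 1 = 2 * k := by exact_mod_cast hmid
    rw [h1]
    field_simp
    ring
  have hxx : B x₀ x₀ * 2 = k := by
    have e1 : B x₀ x₀ = B x₀ (∑ p ∈ S x₀, p - (2⁻¹ : K) • ∑ p ∈ P, p) := by rw [← hx₀e]
    have e2 : ∑ p ∈ S x₀, B x₀ p = k := by
      rw [Finset.sum_congr rfl (fun p hp => ((memS x₀ p).mp hp).2), Finset.sum_const,
        nsmul_eq_mul, mul_one]
    have e3 : ∑ p ∈ P, B x₀ p = k := by
      rw [Finset.sum_congr rfl (v1 x₀ hx₀1), Finset.sum_ite_mem, Finset.sum_const, nsmul_eq_mul,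
        mul_one, Finset.inter_eq_right.mpr (sub1 x₀ hx₀1)]
    rw [e1, map_sub, map_sum, map_smul, map_sum, e2, e3, smul_eq_mul]
    field_simp
    ring
  obtain ⟨q, hq'⟩ := hq x₀ hx₀
  have hkq : k = 2 * q := by
    rw [hq'] at hxx
    have h1 : ((2 * q : ℕ) : K) = ((k : ℕ) : K) := by
      push_cast
      linear_combination hxx
    exact_mod_cast h1.symm
  refine ⟨k, ⟨q, by omega⟩, by omega, ?_, ?_⟩
  · have e1 : (2 * (j + 1)).choose (j + 1) = (2 * j + 1).choose j + (2 * j + 1).choose (j + 1) :=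
      Nat.choose_succ_succ (2 * j + 1) j
    rw [card3, card2, card1, hj, hdj, e1, Nat.choose_symm_half]
  · intro a ha
    refine CW.card_all h ?_ ha
    intro a ha hsa
    have haP : a ∈ P := (hP a).mpr ⟨ha, hsa⟩
    have e1 : X.filter (fun x => B x a = 1) = X₁.filter (fun x => a ∈ S x) := by
      ext x
      rw [Finset.mem_filter, Finset.mem_filter, memX₁, memS]
      constructor
      · rintro ⟨h1, h2⟩
        exact ⟨⟨h1, valc x h1 a ha hsa h2⟩, haP, h2⟩
      · rintro ⟨⟨h1, -⟩, -, h2⟩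
        exact ⟨h1, h2⟩
    have e2 : (X₁.filter (fun x => a ∈ S x)).image S =
        (P.powersetCard k).filter (fun T => a ∈ T) := by
      rw [← im1, Finset.filter_image]
    have e3 : (X₁.filter (fun x => a ∈ S x)).card =
        ((P.powersetCard k).filter (fun T => a ∈ T)).card := by
      rw [← e2, Finset.card_image_of_injOn]
      exact inj1.mono (by
        intro x hx
        exact (Finset.mem_filter.mp hx).1)
    rw [e1, e3, hj, card_powersetCard_mem haP, ← hd, hdj]
    congr 1

end OR
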